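import Pool.Agent.UL7.Defs

/-!
# Squad UL7: statements

One statement per row; every docstring contains a complete proof.
-/

set_option autoImplicit false

namespace Pool.Agent.UL7

open MeasureTheory Set Pool.Agent.UL3 Pool.Agent.UL4 Pool.Agent.UL5

/-! ### Block A: sums with segments -/

/-- **SGC** (easy, no hypotheses).  The sum with a segment.
PROOF.  `sgm X v` is the image of `X ×ˢ [-1,1]` under the continuous map `(x,t) ↦ x + t v`; convex: the same map is linear (or directly); it contains `X` (`t = 0`), so its interior is nonempty. -/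
def SgcStmt : Prop :=
  ∀ (X : Set (ℝ × ℝ)) (v : ℝ × ℝ), (IsCompact X → IsCompact (sgm X v)) ∧
    (Convex ℝ X → Convex ℝ (sgm X v)) ∧ X ⊆ sgm X v ∧ (PC X → PC (sgm X v))

/-- **SGD** (medium, no hypotheses).  The area of the sum with a horizontal segment.
PROOF.  `J` = the image of `X` under the second coordinate, a compact interval `[c, d]` (compact, convex). For `y ∈ J` the slice `{x | (x,y) ∈ X}` is a nonempty compact interval `[α, β]` and the slice of `sgm X (1,0)` is `[α - 1, β + 1]`;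
for `y ∉ J` both are empty. Fubini (`Measure.prod_apply_symm`, `Measure.volume_eq_prod`): `volume (sgm X (1,0)) = volume X + 2 (d - c)`. `cr (1,0) w = w.2`, so the image of `dh X` under `cr (1,0)` is `{(y - y')/2 | y, y' ∈ J}`, with supremum
`Hm (dh X) (1,0) = (d - c)/2`. (Volumes are finite: compact sets.) -/
def SgdStmt : Prop := ∀ X : Set (ℝ × ℝ), PC X → ar (sgm X (1, 0)) = ar X + 4 * Hm (dh X) (1, 0)

/-- **SGA** (easy-medium, uses SGD).  The area of the sum with a segment.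
PROOF.  `v = 0`: `sgm X 0 = X`, `cr 0 w = 0`, so `Hm (dh X) 0 = sSup {0} = 0`. `v ≠ 0`: `u` with `cr v u = 1` (`u = (v.1^2 + v.2^2)⁻¹ • (-v.2, v.1)`), `L p = p.1 • v + p.2 • u`, a linear equivalence of determinant `1`; `X = L '' Y`, `PC Y`,
`sgm X v = L '' sgm Y (1,0)`, `dh X = L '' dh Y`, `cr v (L w) = cr (L (1,0)) (L w) = cr (1,0) w`, so `Hm (dh X) v = Hm (dh Y) (1,0)`; areas are preserved (`Measure.addHaar_image_linearMap` or `..._continuousLinearEquiv`). SGD for `Y`. -/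
def SgaStmt : Prop :=
  ∀ (X : Set (ℝ × ℝ)) (v : ℝ × ℝ), PC X → ar (sgm X v) = ar X + 4 * Hm (dh X) v

/-- **DHS** (easy, no hypotheses).  Half of the difference body.
PROOF.  `dh X` is the image of the compact convex set `X ×ˢ X` under a continuous linear map; symmetric: exchange `a` and `b`; interior: `dh X ⊇ (1/2) (X - b)` for a fixed `b ∈ X`. `PB M`: `m = (1/2)(m - (-m))`, and `(1/2)(a - b) = (1/2) a + (1/2)(-b) ∈ M`.
`(1/2)((a + s v) - (b + t v)) = (1/2)(a - b) + ((s - t)/2) v`, `|s - t|/2 ≤ 1`, conversely `s = τ`, `t = - τ`. `(1/2)(c a - c b) = c (1/2)(a - b)`. -/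
def DhsStmt : Prop :=
  (∀ X : Set (ℝ × ℝ), PC X → PB (dh X) ∧ PC (dh X)) ∧ (∀ M : Set (ℝ × ℝ), PB M → dh M = M ∧ PC M) ∧
    (∀ (X : Set (ℝ × ℝ)) (v : ℝ × ℝ), dh (sgm X v) = sgm (dh X) v) ∧
    ∀ (X : Set (ℝ × ℝ)) (c : ℝ), 0 < c → dh ((fun x => c • x) '' X) = (fun x => c • x) '' dh X ∧
      (PC X → PC ((fun x => c • x) '' X))

/-- **ZLI** (easy-medium, uses SGC).  Sums with zonotopes.
PROOF.  All by induction on `l`, generalizing `X`. First claim: `zon X (v :: l) = zon (sgm X v) l = {y + z | y ∈ sgm X v, z ∈ zon {0} l}` and `zon {0} (v :: l) = zon (sgm {0} v) l = {s v + z | |s| ≤ 1, z ∈ zon {0} l}` by the induction hypothesis for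
`sgm X v` and `sgm {0} v`. Compactness, convexity, `PC`: SGC. Symmetry of `zon {0} l`: by the first claim `zon {0} (v :: l)` is `{s v + z}`. Scaling: `sgm (c X) (c v) = c (sgm X v)`. -/
def ZliStmt : Prop :=
  (∀ (X : Set (ℝ × ℝ)) (l : List (ℝ × ℝ)), zon X l = {p | ∃ x ∈ X, ∃ z ∈ zon {0} l, p = x + z}) ∧
    (∀ l : List (ℝ × ℝ), IsCompact (zon {0} l) ∧ Convex ℝ (zon {0} l) ∧ (0 : ℝ × ℝ) ∈ zon {0} l ∧
      (∀ z ∈ zon {0} l, -z ∈ zon {0} l) ∧
      ∀ c : ℝ, zon {0} (l.map fun v => c • v) = (fun x => c • x) '' zon {0} l) ∧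
    ∀ (X : Set (ℝ × ℝ)) (l : List (ℝ × ℝ)), PC X → PC (zon X l)

/-- **ZON** (easy-medium, uses SGC SGA DHS).  The area of the sum with a zonotope.
PROOF.  Induction on `l`, generalizing `X`. `[]`: trivial. `v :: l`: the induction hypothesis for `sgm X v` (`PC`: SGC): `ar (zon X (v :: l)) = ar (sgm X v) + (ar (zon (dh (sgm X v)) l) - ar (dh (sgm X v)))`; `dh (sgm X v) = sgm (dh X) v` (DHS), so
`zon (dh (sgm X v)) l = zon (dh X) (v :: l)`; SGA for `X` and for `dh X` (`dh (dh X) = dh X` by DHS, since `PB (dh X)`): `ar (sgm X v) = ar X + 4 Hm (dh X) v`, `ar (sgm (dh X) v) = ar (dh X) + 4 Hm (dh X) v`. -/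
def ZonStmt : Prop :=
  ∀ (X : Set (ℝ × ℝ)) (l : List (ℝ × ℝ)), PC X →
    ar (zon X l) = ar X + (ar (zon (dh X) l) - ar (dh X))

/-! ### Block B: approximation of symmetric planar bodies by zonotopes -/

/-- **BDP** (medium, no hypotheses).  The boundary curve.
PROOF.  `g = gauge M` is continuous (`continuous_gauge`: `M` is convex and a neighbourhood of `0`, `PB.zero_mem`), `g x > 0` for `x ≠ 0` (`M` bounded), `g (-x) = g x`. `e φ = (cos φ, sin φ)`, `P φ = (g (e φ))⁻¹ • e φ`. `g (P φ) = 1`: `P φ ∈ M` (`M` closed: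
`gauge_le_one_iff_mem_closure` or similar), `P φ ∉ interior M` (`interior_subset_gauge_lt_one`). `e (φ + π) = - e φ`. `x ∈ M`: `x = s • e φ`, `s ≥ 0` (`x = 0`: `s = 0`; otherwise polar coordinates, e.g. `Complex.arg`), `t = s g (e φ) = g x ≤ 1`. -/
def BdpStmt : Prop := ∀ M : Set (ℝ × ℝ), PB M → ∃ P : ℝ → ℝ × ℝ, Bd M P

/-- **MNP** (medium, no hypotheses).  A linear functional is monotone on half of the boundary curve.
PROOF.  (a) If `α < β < γ`, `γ - α < π`, then `P β = A • P α + B • P γ` with `A, B > 0` and `1 ≤ A + B`: `e β = (sin (γ-β)/sin (γ-α)) e α + (sin (β-α)/sin (γ-α)) e γ`, all sines positive, and `P = ρ e` with `ρ > 0`; if `A + B < 1`, then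
`P β = (A+B) q`, `q ∈ M` a convex combination, is an interior point, since `0` is one (`PB.zero_mem`, `Convex.combo_interior_self_mem_interior`): contradiction. Write `f φ = cr u (P φ)`, `m = f φ₀`; `f (φ₀ + π) = - m`, and `- m ≤ f` everywhere
(`f (x + π) = - f x`; `f x ≥ - m` since `f (x + π) ≤ m`). Let `φ₀ ≤ φ < ψ ≤ φ₀ + π`; `φ = φ₀` and `ψ = φ₀ + π` are trivial. If `f ψ ≥ 0`: (a) for `φ₀ < φ < ψ`: `f φ = A m + B f ψ ≥ (A + B) f ψ ≥ f ψ`. If `f ψ < 0 ≤ f φ`: trivial. If `f φ < 0`: (a) for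
`φ < ψ < φ₀ + π`: `f ψ = A f φ + B (-m) ≤ (A + B) f φ ≤ f φ`. -/
def MnpStmt : Prop :=
  ∀ (M : Set (ℝ × ℝ)) (P : ℝ → ℝ × ℝ), PB M → Bd M P → ∀ (u : ℝ × ℝ) (φ₀ : ℝ),
    (∀ φ, cr u (P φ) ≤ cr u (P φ₀)) →
    ∀ φ ψ : ℝ, φ₀ ≤ φ → φ ≤ ψ → ψ ≤ φ₀ + Real.pi → cr u (P ψ) ≤ cr u (P φ)

/-- **VRP** (medium, uses MNP).  The variation of a linear functional on half of the boundary curve.
PROOF.  `f φ = cr u (P φ)` is continuous, `f (φ + π) = - f φ`. `|f|` has a maximum on `[0, π]`, at `φ₀`, so (periodicity of `|f|`) everywhere; replacing `u` by `-u` (the sum and `Hm M u` do not change, `M = - M`) `m = f φ₀ ≥ 0` is the maximum of `f`. By MNP `f` is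
antitone on `[φ₀, φ₀ + π]`, and so (`f φ = - f (φ + π)`) monotone on `[φ₀ - π, φ₀]`, which contains `[0, φ₀]`. Put `g φ = f φ` for `φ ≤ φ₀`, `g φ = 2 m - f φ` for `φ > φ₀`. For `0 ≤ a ≤ b ≤ π`: `|f b - f a| ≤ g b - g a` (three cases). Telescoping: the sum is
`≤ g π - g 0 ≤ 2 m - f π - f 0 = 2 m` (if `φ₀ = π`, then `g π = m = 2 m - f π`), and `m ≤ Hm M u` (`le_csSup`, `M` compact). `N = 0`: `0 ≤ Hm M u` since `0 ∈ M`. -/
def VrpStmt : Prop :=
  ∀ (M : Set (ℝ × ℝ)) (P : ℝ → ℝ × ℝ), PB M → Bd M P → ∀ (u : ℝ × ℝ) (N : ℕ),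
    ∑ j ∈ Finset.range N, |cr u (P (Real.pi * ((j : ℝ) + 1) / N)) - cr u (P (Real.pi * (j : ℝ) / N))| ≤
      2 * Hm M u

/-- **ZIN** (medium, uses VRP).  The zonotope is inside.
PROOF.  (a) For all `X`, `l`, `z ∈ zon X l` there is `x ∈ X` with `cr u z ≤ cr u x + ∑_(v ∈ l) |cr u v|` (induction on `l`, generalizing `X`). (b) If `z ∈ zon {0} (edg P N)`, `z ∉ M`: separate (`geometric_hahn_banach_closed_point`; every linear functional of the
plane is `cr u`): `cr u x < s < cr u z` for all `x ∈ M`. By (a) and VRP `cr u z ≤ ∑ |cr u (edg_j)| = (1/2) ∑_j |..| ≤ Hm M u`, the maximum of `cr u` on `M` (attained: `IsCompact.sSup_mem`), contradiction. -/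
def ZinStmt : Prop :=
  ∀ (M : Set (ℝ × ℝ)) (P : ℝ → ℝ × ℝ), PB M → Bd M P → ∀ N : ℕ, zon {0} (edg P N) ⊆ M

/-- **ZVX** (easy-medium, uses ZLI).  The zonotope contains the vertices of the polygon.
PROOF.  (a) `zon {0} l` contains `∑_(v ∈ l) s_v v` for all signs (`|s_v| ≤ 1`), precisely: `∑_(j < N) s_j e_j ∈ zon {0} ((List.range N).map e)` for `|s_j| ≤ 1` (ZLI, first part; or: `zon X (l ++ l') = zon (zon X l) l'` and `List.range_succ`).
(b) `e_j = (1/2)(P_(j+1) - P_j)`, `P_j = P (π j/N)`, `P_N = P π = - P 0 = - P_0` (`N ≠ 0`), so `∑_(j < N) e_j = - P_0` and `P_k = P_0 + 2 ∑_(j < k) e_j = ∑_(j < k) e_j - ∑_(k ≤ j < N) e_j`. -/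
def ZvxStmt : Prop :=
  ∀ P : ℝ → ℝ × ℝ, (∀ φ, P (φ + Real.pi) = -P φ) → ∀ N k : ℕ, 0 < N → k ≤ N →
    P (Real.pi * (k : ℝ) / N) ∈ zon {0} (edg P N)

/-- **ZAP** (medium, uses BDP ZIN ZVX ZLI).  Approximation by zonotopes.
PROOF.  `P` of BDP. `closedBall 0 c ⊆ M`, `c > 0` (`PB.zero_mem`). `P` is uniformly continuous on `[0, π]`: choose `N > 0` with `‖P φ - P ψ‖ ≤ ε c` for `φ, ψ ∈ [0, π]`, `|φ - ψ| ≤ π/N`; `Z = zon {0} (edg P N) ⊆ M` (ZIN). CLAIM: every `x ∈ M` is `z + ε m` with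
`z ∈ Z`, `m ∈ M`: `x = t P φ`, `0 ≤ t ≤ 1` (`Bd.all`); `φ = φ' + π q`, `φ' ∈ [0, π)`, `q ∈ ℤ`, `P φ = ± P φ'` (`Bd.anti`); `k = ⌊φ' N/π⌋`: `‖P φ' - P_k‖ ≤ ε c`; `± t P_k ∈ Z` (ZVX, ZLI: symmetric, convex, `0 ∈ Z`) and `x ∓ t P_k` has norm `≤ ε c`, so is in `ε M`. Now suppose
`(1 - ε) x ∉ Z`, `x ∈ M`; separate (`Z` compact convex): a continuous linear `g` with `g z ≤ s < g ((1 - ε) x)` for `z ∈ Z`. Let `g` be maximal on `M` at `x₀ = z₀ + ε m₀`: `g x₀ ≤ s + ε g x₀`, so `(1 - ε) g x₀ ≤ s < (1 - ε) g x ≤ (1 - ε) g x₀`, contradiction. -/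
def ZapStmt : Prop :=
  ∀ M : Set (ℝ × ℝ), PB M → ∀ ε : ℝ, 0 < ε → ε < 1 →
    ∃ l : List (ℝ × ℝ), zon {0} l ⊆ M ∧ ∀ x ∈ M, (1 - ε) • x ∈ zon {0} l

/-! ### Block C: areas -/

/-- **VLP** (medium, uses ZON ZAP ZLI DHS).  The area of `(1 - s) A + s dh A` from below.
PROOF.  `M = dh A`, `PB M` (DHS). `s = 0`: `A ⊆ mix A 0` (`dh A` is nonempty). `s = 1`: `dh A ⊆ mix A 1`. Let `0 < s < 1`, `X = (1 - s) A` (`PC`, DHS), `dh X = (1 - s) M`. For `0 < ε < 1` let `l` be the list of ZAP for `M`, `Z = zon {0} l ⊆ M`, `l' = l.map (s • ·)`, `zon {0} l' = s Z` (ZLI).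
`zon X l' = X + s Z ⊆ mix A s` (ZLI), `zon (dh X) l' = (1 - s) M + s Z ⊇ (1 - s ε) M`: `(1 - s ε) m = (1 - s) m + s (1 - ε) m`. ZON: `ar (mix A s) ≥ ar (zon X l') = (1-s)^2 ar A + ar (zon (dh X) l') - (1-s)^2 ar M ≥ (1-s)^2 ar A + (1 - s ε)^2 ar M - (1-s)^2 ar M`
(`ar (c • S) = c^2 ar S`: `Measure.addHaar_smul`, `finrank = 2`; `mix A s` is compact, so its volume is finite). `ε → 0`. -/
def VlpStmt : Prop :=
  ∀ (A : Set (ℝ × ℝ)) (s : ℝ), PC A → 0 ≤ s → s ≤ 1 →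
    (1 - s) ^ 2 * ar A + (1 - (1 - s) ^ 2) * ar (dh A) ≤ ar (mix A s)

/-- **RSP** (medium, no hypotheses; same proof as rows RSA RSB RSC of UL4).  Rogers-Shephard in the plane.
PROOF.  `g x = volume {y ∈ A | y - x ∈ A}`. Tonelli: `∫ g = (volume A)^2`. `S = A - A = 2 dh A` (compact, convex, `0 ∈ S`). If `x = θ p`, `p = a - b ∈ S`, `0 ≤ θ ≤ 1`: `(1 - θ) A + θ a ⊆ A` and its translate by `-x` is `(1 - θ) A + θ b ⊆ A`, so `g x ≥ (1 - θ)^2 volume A`.
For every `x`: `∫_0^1 2 (1 - θ) 1[x ∈ θ S] dθ * volume A ≤ g x`, since `{θ ∈ (0,1] | x ∈ θ S}` is empty or an interval with the left end `θ₀`, and `∫_θ₀^1 2 (1 - θ) = (1 - θ₀)^2` (use `g x ≥ (1 - θ)^2 volume A` for all `θ` of the interval). Integrate over `x`: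
`volume A * volume S * ∫_0^1 2 (1 - θ) θ^2 = volume A * volume S/6 ≤ (volume A)^2`, so `volume S ≤ 6 volume A`, and `volume S = 4 volume (dh A)`. -/
def RspStmt : Prop := ∀ A : Set (ℝ × ℝ), PC A → 2 * ar (dh A) ≤ 3 * ar A

/-- **SPV** (medium, uses VLP RSP DHS; import the proved rows FUB and SEC of UL3, `Pool.Agent.UL3.H34.fub` and `Pool/Agent/Helper36_UL3/SEC.lean`).  The volume of a symmetric body from a face.
PROOF.  `A = sec D 1`, `M = dh A`, `al = al D`. `sec D (-1) = - A` (SEC). For `0 ≤ z ≤ 1`: `mix A (1 - z) ⊆ sec D z`: `z a + (1 - z) (1/2)(b - b')` at height `z` is `z up a 1 + ((1-z)/2) up b 1 + ((1-z)/2) up (-b') (-1)`, a convex combination of points of `D`. VLP (`s = 1 - z`), RSP: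
`al z ≥ z^2 ar A + (1 - z^2) ar M ≥ (2/3) z^2 ar M + (1 - z^2) ar M = ar M (1 - z^2/3)`. `al (-z) = al z`. FUB with `g = 1`: `V D = ∫ al ≥ ∫_(-1)^1 al ≥ ar M ∫_(-1)^1 (1 - z^2/3) = ar M (2 - 2/9) = (16/9) ar M` (`al ≥ 0`). -/
def SpvStmt : Prop :=
  ∀ D : Set E3, SB D → PC (sec D 1) → 16 / 9 * ar (dh (sec D 1)) ≤ V D

/-! ### Block D: the lattice -/

/-- **GDS** (easy-medium, uses SPV; import the proved rows PLN, ADJ, SEC of UL3: `H23.pln H77.paa (H3.pab H77.paa) H75.pac`, `H90.adj`).  A body in the standard position is good.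
PROOF.  `M₀ = sec D 0` is a `PB` (SEC), `M₀ ⊆ r dh (sec D 1)`, so `ar M₀ ≤ r^2 ar (dh (sec D 1)) ≤ r^2 (9/16) V D` (SPV). PLN: `a, b` with `Adm2 M₀ a b`, `0 < cr a b`, `2 sqrt 3 * cr a b ≤ ar M₀`. `v = ![up a 0, up b 0, up 0 1]`: `dt v = cr a b`
(`Matrix.det_fin_three`). `Adm D v`: `∑ n_i v_i = up (n_0 a + n_1 b) n_2`; `n_2 = 0`: if interior in `D`, then `n_0 a + n_1 b` is interior in `sec D 0` (SEC): contradiction; `|n_2| ≥ 1`: an interior point of `D` has third coordinate of absolute value `< 1` (move a little in the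
third direction; symmetry). ADJ: disjointness. `32 sqrt 3/(9 r^2) * cr a b ≤ 32 sqrt 3/(9 r^2) * (r^2 (9/16) V D)/(2 sqrt 3) = V D`. -/
def GdsStmt : Prop :=
  ∀ (D : Set E3) (r : ℝ), SB D → (∀ x ∈ D, x 2 ≤ 1) → PC (sec D 1) → 0 < r →
    (∀ p ∈ sec D 0, ∃ q ∈ dh (sec D 1), p = r • q) → Good7 r D

/-- **INC** (easy-medium, no hypotheses).  Affine invariance.
PROOF.  As row INB of UL5 (same proof, other constant): `T.symm ∘ v`. -/
def IncStmt : Prop :=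
  ∀ (r : ℝ) (K : Set E3) (T : E3 ≃L[ℝ] E3) (c : E3), Good7 r ((fun x => T (x - c)) '' K) → Good7 r K

/-- **TIN** (easy-medium, no hypotheses).  Interior points.
PROOF.  If `interior A = ∅`, then the affine span of `A` is not everything (`Convex.interior_nonempty_iff_affineSpan_eq_top`), so (`A` is nonempty) its direction `S` is a proper linear subspace (`vectorSpan`), and `dh A ⊆ S`; but a proper subspace has
empty interior (`Submodule.eq_top_of_nonempty_interior'`). -/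
def TinStmt : Prop :=
  ∀ A : Set (ℝ × ℝ), IsCompact A → Convex ℝ A → (interior (dh A)).Nonempty → PC A

/-- **STP** (medium, uses TIN; import the proved row SEC of UL3 if useful).  The standard position.
PROOF.  `n ≠ 0`: otherwise `D` (nonempty) gives a point `y` with `inner (y - c) 0 = 1`. `T`: a linear equivalence with third coordinate `(T x) 2 = inner x n` (complete `n` to a basis; or ROT of UL3 for the unit vector `n/‖n‖` and a scaling by `‖n‖`). `D' = (fun x => T (x - c)) '' D`: compact, convex,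
symmetric (`T (2 c - x - c) = - T (x - c)`), with interior points (homeomorphism); heights `inner (x - c) n ≤ 1`. `up p 0 = T (x - c) ∈ D'`: `inner (x - c) n = 0`, `x - c = (r/2)((y - c) - (z - c))`, `T (y - c) = up a 1`, `T (z - c) = up b 1` with `a, b ∈ sec D' 1`, so
`p = r • (1/2)(a - b)`. `sec D' 1` is compact and convex; `sec D' 0 ⊆ r • dh (sec D' 1)` has interior points (SEC, `PB (sec D' 0)`), so `dh (sec D' 1)` has (`r > 0`), TIN. -/
def StpStmt : Prop :=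
  ∀ (D : Set E3) (c n : E3) (r : ℝ), IsCompact D → Convex ℝ D → (interior D).Nonempty →
    (∀ x ∈ D, (2 : ℝ) • c - x ∈ D) → (∀ x ∈ D, inner ℝ (x - c) n ≤ 1) → 0 < r →
    (∀ x ∈ D, inner ℝ (x - c) n = 0 → ∃ y ∈ D, ∃ z ∈ D, inner ℝ (y - c) n = 1 ∧
      inner ℝ (z - c) n = 1 ∧ x = c + (r / 2) • (y - z)) →
    ∃ T : E3 ≃L[ℝ] E3, SB ((fun x => T (x - c)) '' D) ∧
      (∀ x ∈ (fun x => T (x - c)) '' D, x 2 ≤ 1) ∧ PC (sec ((fun x => T (x - c)) '' D) 1) ∧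
      ∀ p ∈ sec ((fun x => T (x - c)) '' D) 0,
        ∃ q ∈ dh (sec ((fun x => T (x - c)) '' D) 1), p = r • q

/-! ### Block E: the theorem -/

/-- the theorem for the body `K` (`K = D` or a half of `D`) -/
def Concl (r : ℝ) (K : Set E3) : Prop :=
  ∃ f : ℕ → (E3 ≃ᵢ E3),
    (∀ i j : ℕ, i ≠ j → Disjoint (interior ((f i) '' K)) (interior ((f j) '' K))) ∧
    ENNReal.ofReal (4 * Real.sqrt 3 / (9 * r ^ 2)) ≤ Filter.limsup
      (fun R : ℝ => volume ((⋃ i : ℕ, (f i) '' K) ∩ Metric.ball (0 : E3) R) /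
        volume (Metric.ball (0 : E3) R)) Filter.atTop

/-- **HLF** (easy-medium, no hypotheses; import the proved rows LPG of UL4, `Pool.Agent.UL4.H7.lpg`, LPD of UL3, `Pool.Agent.UL3.H88.lpd`).  The body and its halves.
PROOF.  `D`: LPD. Halves: copy `Pool.Agent.UL5.H31.half` (`Pool/Agent/Helper31_UL5/TOP.lean`), with the constant `32 sqrt 3/(9 r^2)` in place of `128/21`. -/
def HlfStmt : Prop :=
  ∀ (r : ℝ) (D : Set E3) (c : E3), 0 < r → IsCompact D → Convex ℝ D → (interior D).Nonempty →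
    (∀ x ∈ D, (2 : ℝ) • c - x ∈ D) → Good7 r D → Concl r D ∧
    ∀ m : E3, m ≠ 0 → (interior {x | x ∈ D ∧ 0 ≤ inner ℝ (x - c) m}).Nonempty →
      Concl r {x | x ∈ D ∧ 0 ≤ inner ℝ (x - c) m}

/-- **TOP** (easy, uses STP GDS INC HLF).  The theorem. -/
def TopStmt : Prop :=
  ∀ (D : Set E3) (c n : E3) (r : ℝ), IsCompact D → Convex ℝ D → (interior D).Nonempty →
    (∀ x ∈ D, (2 : ℝ) • c - x ∈ D) → (∀ x ∈ D, inner ℝ (x - c) n ≤ 1) → 0 < r →
    (∀ x ∈ D, inner ℝ (x - c) n = 0 → ∃ y ∈ D, ∃ z ∈ D, inner ℝ (y - c) n = 1 ∧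
      inner ℝ (z - c) n = 1 ∧ x = c + (r / 2) • (y - z)) →
    ∀ K : Set E3, (K = D ∨ ∃ m : E3, m ≠ 0 ∧ K = {x | x ∈ D ∧ 0 ≤ inner ℝ (x - c) m}) →
      (interior K).Nonempty → Concl r K

end Pool.Agent.UL7
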