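import Pool.Agent.UL5.Stmts2

/-!
# Squad UL7 (MP_c7c9bf_co): symmetric bodies between two parallel faces satisfy Ulam's bound

THEOREM (helper32). Let `D` be a centrally symmetric convex body in 3-space (centre `c`) in the slab
`-1 ≤ ⟪x - c, n⟫ ≤ 1`, `F` its intersection with the plane `⟪x - c, n⟫ = 1`. If every point of the central
section `⟪x - c, n⟫ = 0` is `c + (r/2) (y - z)` with `y, z ∈ F` (for `r = 1`: exactly the convex hulls of
`F ∪ (2 c - F)`, `F` a planar convex body), then `D`, and every half of `D` cut off by a plane through `c`, has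
a packing of density at least `4 sqrt 3 / (9 r^2)` (`r = 1`: `0.7698 > 0.74049 = pi / sqrt 18`).

All rows: file `Pool/Agent/HelperNN_UL7/XXX.lean`, `import Pool.Agent.UL7.Stmts`, namespace
`Pool.Agent.UL7.HNN`, theorem `xxx (hypotheses = the statements of the column uses, in this order) : XxxStmt`.
-/

set_option autoImplicit false

namespace Pool.Agent.UL7

open MeasureTheory Set Pool.Agent.UL3 Pool.Agent.UL4 Pool.Agent.UL5

/-- a planar convex body -/
structure PC (A : Set (ℝ × ℝ)) : Prop where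
  cpt : IsCompact A
  cvx : Convex ℝ A
  int : (interior A).Nonempty

/-- half of the difference body -/
def dh (A : Set (ℝ × ℝ)) : Set (ℝ × ℝ) := {p | ∃ a ∈ A, ∃ b ∈ A, p = (1 / 2 : ℝ) • (a - b)}

/-- the sum of `X` and the segment from `-v` to `v` -/
def sgm (X : Set (ℝ × ℝ)) (v : ℝ × ℝ) : Set (ℝ × ℝ) :=
  {p | ∃ x ∈ X, ∃ t : ℝ, |t| ≤ 1 ∧ p = x + t • v}

/-- the sum of `X` and the segments of the list -/
def zon : Set (ℝ × ℝ) → List (ℝ × ℝ) → Set (ℝ × ℝ)
  | X, [] => X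
  | X, v :: l => zon (sgm X v) l

/-- the boundary of the symmetric planar body `M` as a function of the angle -/
structure Bd (M : Set (ℝ × ℝ)) (P : ℝ → ℝ × ℝ) : Prop where
  cont : Continuous P
  mem : ∀ φ, P φ ∈ M
  bdy : ∀ φ, P φ ∉ interior M
  anti : ∀ φ, P (φ + Real.pi) = -P φ
  ray : ∀ φ, ∃ ρ : ℝ, 0 < ρ ∧ P φ = ρ • ((Real.cos φ, Real.sin φ) : ℝ × ℝ)
  all : ∀ x ∈ M, ∃ φ t : ℝ, 0 ≤ t ∧ t ≤ 1 ∧ x = t • P φ

/-- half of the edges of the inscribed polygon with the vertices `P (π j / N)` -/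
noncomputable def edg (P : ℝ → ℝ × ℝ) (N : ℕ) : List (ℝ × ℝ) :=
  (List.range N).map fun j =>
    (1 / 2 : ℝ) • (P (Real.pi * ((j : ℝ) + 1) / N) - P (Real.pi * (j : ℝ) / N))

/-- the body `(1 - s) A + s dh A` -/
def mix (A : Set (ℝ × ℝ)) (s : ℝ) : Set (ℝ × ℝ) :=
  {p | ∃ a ∈ A, ∃ m ∈ dh A, p = (1 - s) • a + s • m}

/-- there is a lattice packing of density at least `4 sqrt 3 / (9 r^2)` -/
def Good7 (r : ℝ) (K : Set E3) : Prop :=
  ∃ v : Fin 3 → E3, 0 < dt v ∧
    (∀ n : Fin 3 → ℤ, n ≠ 0 → Disjoint (interior K)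
      ((fun x => x + (2 : ℝ) • ∑ i, (n i : ℝ) • v i) '' interior K)) ∧
    32 * Real.sqrt 3 / (9 * r ^ 2) * dt v ≤ V K

end Pool.Agent.UL7
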